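import Pool.Agent.R574.LS.Erase

set_option autoImplicit false

/-!
# Erasing rules increase the power of left forbidding E0L grammars

Left forbidding E0L grammars with erasing rules simulate counter programs with decrement errors;
with the fast-growing amplifier of MP_9d0328_lc they encode every primitive recursive predicate of
`m` on the words `a^m b^m c^m`. Propagating left random context E0L grammars are simulated by
noncontracting grammars, for which membership is primitive recursive, so diagonalisation applies.
-/

open Pool.Agent.R574.LS in
/-- Some left forbidding E0L grammar over a three-letter alphabet generates a language which, even
up to the empty word, is not generated by any propagating left forbidding E0L grammar, and not even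
by any propagating left random context E0L grammar (rules may have both kinds of left contexts). -/
theorem Pool.Agent.Results.MP_4c145a_lc.ErasingMatters.result :
    ∃ H : LRC (Fin 3), H.LeftForbidding ∧
      ∀ G : LRC (Fin 3), G.Propagating →
        ∃ w : List (Fin 3), w ≠ [] ∧ ¬ (w ∈ G.language ↔ w ∈ H.language) :=
  Erase.main
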